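import Pool.Agent.Lib_helper79.UR.M5

/-!
# Trisections of homotopy 4-spheres and the Johnson filtration, without stabilisation

The theorem continues the project of helper81 (`Pool.Agent.Lib_helper81.JT`); the proof is in
`Pool.Agent.Lib_helper79.UR` (helper79, helper23, helper27, helper32, helper35, helper37, helper41,
helper44, helper52, helper53, helper67, helper71, helper78, helper87, helper89). The definitions are in
`Pool.Agent.Lib_helper51.TR.Defs`.
-/

set_option autoImplicit false

namespace Pool.Agent.Lib_helper79.Superseded.JohnsonRange

open Pool.Agent.TR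

/-- Let `f` be a group trisection of the trivial group of genus `g` with handles of the types `c`. Let
`f'` be a stabilisation of `f` of genus `g + s`, with handles of the types `c'` (for `s = 0` it is `f`
itself). Then `f'` and `std c'` are group trisections of the trivial group, of the same type, and for
every `n` with `n + 2 ≤ 2 * (g + s)` there is a mapping class `φ` of the surface of genus `g + s` with
one boundary component, which carries the kernels of the three maps of the standard trisection
`std c'` to the kernels of the three maps of `f'`, modulo the term of index `n` of the lower central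
series (index `0` is the whole group). If the first two maps of `f` form the standard splitting (a
mapping class `θ` of genus `g` carries the kernels of the first two maps of `std c` to the kernels of
`f 0` and `f 1`), then `φ` carries the kernels of the first two maps of `std c'` exactly to the kernels
of the first two maps of `f'`. -/
theorem result : ∀ (g : ℕ) (c : Fin g → Fin 3)
    (f : Fin 3 → FreeGroup (Fin g ⊕ Fin g) →* FreeGroup (Fin g)), IsTrisection c f →
    ∀ (s : ℕ) (c' : Fin (g + s) → Fin 3)
      (f' : Fin 3 → FreeGroup (Fin (g + s) ⊕ Fin (g + s)) →* FreeGroup (Fin (g + s))),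
      (∀ h, c' (Fin.castAdd s h) = c h) → IsStab c' f f' →
      IsTrisection c' f' ∧ IsTrisection c' (std c') ∧ ∀ n : ℕ, n + 2 ≤ 2 * (g + s) →
      ∃ φ : FreeGroup (Fin (g + s) ⊕ Fin (g + s)) ≃* FreeGroup (Fin (g + s) ⊕ Fin (g + s)),
        φ (rho (g + s)) = rho (g + s) ∧
        (∀ i, (std c' i).ker.map φ.toMonoidHom ⊔ (⊤ : Subgroup _).lowerCentralSeries n =
          (f' i).ker ⊔ (⊤ : Subgroup _).lowerCentralSeries n) ∧
        ((∃ θ : FreeGroup (Fin g ⊕ Fin g) ≃* FreeGroup (Fin g ⊕ Fin g), θ (rho g) = rho g ∧
            ∀ i, i ≠ 2 → (std c i).ker.map θ.toMonoidHom = (f i).ker) →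
          ∀ i, i ≠ 2 → (std c' i).ker.map φ.toMonoidHom = (f' i).ker) :=
  fun _ _ _ hf _ c' _ hc hst => ⟨hst.tri hc hf, std_tri c', fun _ hn => johnson_range hf hc hst hn⟩

end Pool.Agent.Lib_helper79.Superseded.JohnsonRange
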