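import Pool.Agent.Lib_helper51.TR.J

/-!
# Trisections of homotopy 4-spheres and the Johnson filtration

The theorem is due to helper81 and the seats of the project; the proof is in
`Pool.Agent.Lib_helper81.JT`. Here it is stated for the definitions of
`Pool.Agent.Lib_helper51.TR.Defs`.
-/

set_option autoImplicit false

namespace Pool.Agent.Lib_helper79.Superseded.JohnsonTrisections

open Pool.Agent.TR

/-- Let `f` be a group trisection of the trivial group with handles of the types `c`, whose first two
maps form the standard splitting: an automorphism `θ` of the free group which fixes the boundary word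
(a mapping class) carries the kernels of the first two maps of the standard trisection `std c` to the
kernels of `f 0` and `f 1`. Then for every `n` there are a number `s`, types `c'` of `g + s` handles,
which extend the types `c`, the stabilisation `f'` of `f`, and a mapping class `φ` of the surface of
genus `g + s` (with one boundary component), which carries the kernels of the first two maps of the
standard trisection `std c'` exactly to the kernels of the first two maps of `f'`, and the kernel of
the third one to the kernel of the third one modulo the `n`-th term of the lower central series of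
the free group. Both triples are group trisections of the trivial group of the same type. -/
theorem result : ∀ (g : ℕ) (c : Fin g → Fin 3)
    (f : Fin 3 → FreeGroup (Fin g ⊕ Fin g) →* FreeGroup (Fin g)), IsTrisection c f →
    (∃ θ : FreeGroup (Fin g ⊕ Fin g) ≃* FreeGroup (Fin g ⊕ Fin g), θ (rho g) = rho g ∧
      ∀ i, i ≠ 2 → (std c i).ker.map θ.toMonoidHom = (f i).ker) →
    ∀ n : ℕ, ∃ (s : ℕ) (c' : Fin (g + s) → Fin 3)
      (f' : Fin 3 → FreeGroup (Fin (g + s) ⊕ Fin (g + s)) →* FreeGroup (Fin (g + s)))
      (φ : FreeGroup (Fin (g + s) ⊕ Fin (g + s)) ≃* FreeGroup (Fin (g + s) ⊕ Fin (g + s))),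
      (∀ h, c' (Fin.castAdd s h) = c h) ∧ IsStab c' f f' ∧ IsTrisection c' f' ∧
        IsTrisection c' (std c') ∧ φ (rho (g + s)) = rho (g + s) ∧
        (∀ i, i ≠ 2 → (std c' i).ker.map φ.toMonoidHom = (f' i).ker) ∧
        (std c' 2).ker.map φ.toMonoidHom ⊔ (⊤ : Subgroup _).lowerCentralSeries n =
          (f' 2).ker ⊔ (⊤ : Subgroup _).lowerCentralSeries n :=
  fun _ _ _ hf hs n => johnson hf hs n

end Pool.Agent.Lib_helper79.Superseded.JohnsonTrisections
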